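import Mathlib
import Pool.Agent.Q134.CTMain

set_option autoImplicit false

/-!
# Subdividing an edge need not increase the tree-width threshold

Let `H` be the disjoint union of `c` triangles and `H'` the graph obtained by subdividing one edge
of `H`.  If some graph without `c` disjoint cycles has tree-width at least `3 c - 1`, then
`f(H') = f(H)`: a graph `G` with `tw(G) ≥ f(H) ≥ 3 c` has `c` disjoint cycles; if one of them has
length at least four, then `H'` is a minor of `G`; otherwise one deletes `c - 1` of the triangles,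
and what is left has tree-width at least three and so a cycle of length at least four.
Sparse random graphs show that there is such a number `c`.
-/

namespace Pool.Agent.Results.MP_31fefb_co.NoIncrease

open Pool.Agent.TH507.Host (tw IsMinor)
open Pool.Agent.Q134.CT (subdivide tri)

/-- `G` is planar: it has a straight-line drawing in the plane, with distinct points as vertices, in
which no vertex lies on an edge it is not an end of, and edges without common end are disjoint. -/
def Planar {V : Type} (G : SimpleGraph V) : Prop :=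
  ∃ p : V → ℝ × ℝ, Function.Injective p ∧
    (∀ u v w, G.Adj u v → w ≠ u → w ≠ v → p w ∉ segment ℝ (p u) (p v)) ∧
    ∀ u v x y, G.Adj u v → G.Adj x y → u ≠ x → u ≠ y → v ≠ x → v ≠ y →
      Disjoint (segment ℝ (p u) (p v)) (segment ℝ (p x) (p y))

/-- `k = f(H)`: the least number `k` such that every finite graph of tree-width at least `k`
contains `H` as a minor. -/
def IsThreshold {W : Type} (H : SimpleGraph W) (k : ℕ) : Prop :=
  IsLeast {k : ℕ | ∀ (V : Type) [Finite V] (G : SimpleGraph V), k ≤ tw G → IsMinor H G} k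

/-- the drawing of the triangles -/
def draw {c : ℕ} (x : Fin c × Fin 3) : ℝ × ℝ :=
  (2 * (x.1 : ℝ) + ![0, 1, 0] x.2, ![0, 0, 1] x.2)

theorem draw_fst {c : ℕ} (x : Fin c × Fin 3) :
    draw x ∈ {z : ℝ × ℝ | 2 * (x.1 : ℝ) ≤ z.1 ∧ z.1 ≤ 2 * (x.1 : ℝ) + 1} := by
  obtain ⟨i, j⟩ := x
  fin_cases j <;> simp [draw]

theorem strip_convex (a : ℝ) : Convex ℝ {z : ℝ × ℝ | a ≤ z.1 ∧ z.1 ≤ a + 1} := by
  intro x hx y hy s t hs ht hst
  have h1 : (s • x + t • y).1 = s * x.1 + t * y.1 := by simp
  show a ≤ (s • x + t • y).1 ∧ (s • x + t • y).1 ≤ a + 1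
  have e1 := mul_le_mul_of_nonneg_left hx.1 hs
  have e2 := mul_le_mul_of_nonneg_left hy.1 ht
  have e3 := mul_le_mul_of_nonneg_left hx.2 hs
  have e4 := mul_le_mul_of_nonneg_left hy.2 ht
  have e5 : t = 1 - s := by linarith
  subst e5
  rw [h1]
  constructor
  · linarith
  · linarith

theorem strip_disj {c : ℕ} {i k : Fin c} (hik : i ≠ k) {z : ℝ × ℝ}
    (h1 : 2 * (i : ℝ) ≤ z.1 ∧ z.1 ≤ 2 * (i : ℝ) + 1)
    (h2 : 2 * (k : ℝ) ≤ z.1 ∧ z.1 ≤ 2 * (k : ℝ) + 1) : False := by
  have h3 : (i : ℕ) ≠ k := fun h => hik (Fin.ext h)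
  rcases lt_or_gt_of_ne h3 with h | h
  · have : ((i : ℕ) : ℝ) + 1 ≤ (k : ℕ) := by exact_mod_cast h
    linarith [h1.2, h2.1]
  · have : ((k : ℕ) : ℝ) + 1 ≤ (i : ℕ) := by exact_mod_cast h
    linarith [h1.1, h2.2]

theorem planar_tri (c : ℕ) : Planar (tri c) := by
  refine ⟨draw, ?_, ?_, ?_⟩
  · rintro ⟨i, j⟩ ⟨k, l⟩ h
    by_cases hik : i = k
    · subst hik
      obtain ⟨h1, h2⟩ := Prod.mk.inj h
      fin_cases j <;> fin_cases l <;> simp at h1 h2 ⊢
    · have h1 := draw_fst (i, j)
      rw [h] at h1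
      exact (strip_disj hik h1 (draw_fst (k, l))).elim
  · rintro ⟨i, j⟩ ⟨i', j'⟩ ⟨k, l⟩ ⟨hi, hj⟩ h1 h2 hmem
    simp only at hi hj
    subst hi
    by_cases hik : i = k
    · subst hik
      obtain ⟨a, b, ha, hb, hab, hz⟩ := hmem
      obtain ⟨e1, e2⟩ := Prod.mk.inj hz
      have hb' : b = 1 - a := by linarith
      subst hb'
      simp only [Prod.smul_fst, Prod.smul_snd, smul_eq_mul, draw] at e1 e2
      fin_cases j <;> fin_cases j' <;> fin_cases l <;>
        first
          | exact absurd rfl hj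
          | exact absurd rfl h1
          | exact absurd rfl h2
          | (simp at e1 e2 <;> nlinarith)
    · have h3 := (strip_convex (2 * (i : ℝ))).segment_subset (draw_fst (i, j)) (draw_fst (i, j'))
        hmem
      exact strip_disj hik h3 (draw_fst (k, l))
  · rintro ⟨i, j⟩ ⟨i', j'⟩ ⟨k, l⟩ ⟨k', l'⟩ ⟨hi, hj⟩ ⟨hk, hl⟩ h1 h2 h3 h4
    simp only at hi hj hk hl
    subst hi
    subst hk
    by_cases hik : i = k
    · subst hik
      exfalso
      have n1 : j ≠ l := fun h => h1 (by rw [h])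
      have n2 : j ≠ l' := fun h => h2 (by rw [h])
      have n3 : j' ≠ l := fun h => h3 (by rw [h])
      have n4 : j' ≠ l' := fun h => h4 (by rw [h])
      clear h1 h2 h3 h4
      omega
    · rw [Set.disjoint_left]
      intro z hz hz'
      exact strip_disj hik
        ((strip_convex (2 * (i : ℝ))).segment_subset (draw_fst (i, j)) (draw_fst (i, j')) hz)
        ((strip_convex (2 * (k : ℝ))).segment_subset (draw_fst (k, l)) (draw_fst (k, l')) hz')

/-- There are a finite planar graph `H` and an edge `a b` of `H` such that the graph `H'` obtained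
from `H` by subdividing `a b` once has `f(H') = f(H)`. -/
theorem result : ∃ (W : Type) (_ : Finite W) (H : SimpleGraph W) (a b : W) (k : ℕ),
    Planar H ∧ H.Adj a b ∧ IsThreshold H k ∧ IsThreshold (subdivide H a b) k := by
  classical
  obtain ⟨m, hm⟩ := Pool.Agent.Q134.CT.forces_iff
  obtain ⟨K, hK⟩ := Pool.Agent.Q134.CT.finite_bound m
  have hex : ∃ k, Pool.Agent.Q134.CT.Forces (Pool.Agent.Q134.CT.tri' m) k := ⟨K, hK⟩
  have hex' : ∃ k, Pool.Agent.Q134.CT.Forces (tri (m + 1)) k := ⟨K, (hm K).2 hK⟩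
  have h1 : IsThreshold (tri (m + 1)) (Nat.find hex') :=
    ⟨Nat.find_spec hex', fun k hk => Nat.find_min' hex' hk⟩
  have h2 : IsThreshold (Pool.Agent.Q134.CT.tri' m) (Nat.find hex') :=
    ⟨(hm _).1 (Nat.find_spec hex'), fun k hk => Nat.find_min' hex' ((hm k).2 hk)⟩
  exact ⟨Fin (m + 1) × Fin 3, inferInstance, tri (m + 1), (0, 0), (0, 1), Nat.find hex',
    planar_tri _, ⟨rfl, by simp⟩, h1, h2⟩

end Pool.Agent.Results.MP_31fefb_co.NoIncrease
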